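import Pool.Agent.Lib.MP_ae2e71_gt.Final

/-!
# Every reduced shadow with `n` crossings resolves into at least `n` knots

The proof uses the two Vassiliev invariants of order two and three.  They are given by Gauss
diagram sums whose invariance under the Reidemeister moves is proved here from the vanishing of
intersection numbers of closed curves in the plane.  On the resolutions of a shadow the first one
is, up to a constant, a quadratic form in the signs of the crossings, with coefficients `1` for
interlaced pairs of crossings and `0` otherwise, and the second one is an odd cubic polynomial in
the signs.  A dimension count in the space of functions on the cube of signs shows that the pair
takes at least `n` values.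
-/

open Pool.Agent.KnotCode

/-- For every reduced shadow with `n` crossings (given as the shadow of an arbitrary diagram `D`),
the number of knots into which the shadow resolves is at least `n`. -/
theorem Pool.Agent.Results.MP_ae2e71_gt.ReducedShadows.result (D : Diagram)
    (hred : D.code.Reduced) : (D.numCrossings : ℕ∞) ≤ D.resolutions.encard :=
  Pool.Agent.Lib.MP_ae2e71_gt.main D hred
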